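import Pool.Agent.Lib.helper26.CXFpt

namespace Pool.Agent.Results.MP_3f5cd8_lc.Fpt
open Pool.Agent.Lib.CX

variable {V : Type}

/-- local complement: toggle the adjacency of distinct neighbours of `a` -/
def lc (G : SimpleGraph V) (a : V) : SimpleGraph V where
  Adj x y := x ≠ y ∧ ((G.Adj a x ∧ G.Adj a y) ↔ ¬ G.Adj x y)
  symm := ⟨fun x y h => ⟨h.1.symm, by rw [and_comm, G.adj_comm y x]; exact h.2⟩⟩
  loopless := ⟨fun _ h => h.1 rfl⟩

open Classical in
/-- local inversion of a bicoloured graph -/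
noncomputable def inv (B : SimpleGraph V × (V → ℤˣ)) (a : V) : SimpleGraph V × (V → ℤˣ) :=
  (lc B.1 a, fun x => if B.1.Adj a x then -B.2 x else B.2 x)

/-- the colour-reversal number -/
noncomputable def cr (G : SimpleGraph V) : ℕ∞ :=
  ⨅ (l : ℕ) (_ : ∀ β : V → ℤˣ, ∃ w : List V, w.length ≤ l ∧ w.foldl inv (G, β) = (G, -β)), (l : ℕ∞)

def Ok (G : SimpleGraph V) (l : ℕ) : Prop := ∀ β : V → ℤˣ, ∃ w : List V, w.length ≤ l ∧ w.foldl inv (G, β) = (G, -β)

theorem cr_le (G : SimpleGraph V) (k : ℕ) : cr G ≤ k ↔ Ok G k := by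
  refine ⟨fun h => ?_, fun h => iInf₂_le k h⟩
  obtain ⟨l, hl⟩ := iInf_lt_iff.1 (h.trans_lt (ENat.natCast_lt_natCast.2 k.lt_succ_self))
  obtain ⟨h1, h2⟩ := iInf_lt_iff.1 hl
  intro β
  obtain ⟨w, hw, e⟩ := h1 β
  exact ⟨w, hw.trans (Nat.lt_succ_iff.1 (ENat.natCast_lt_natCast.1 h2)), e⟩

def T (B : SimpleGraph V × (V → ℤˣ)) (β : V → ℤˣ) (x y : V) : Prop := B.1.Adj x y ∨ (x = y ∧ B.2 x ≠ β x)

theorem T_inv (B : SimpleGraph V × (V → ℤˣ)) (β : V → ℤˣ) (a x y : V) :
    T (inv B a) β x y ↔ ((B.1.Adj a x ∧ B.1.Adj a y) ↔ ¬ T B β x y) := by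
  by_cases h : x = y
  · subst h
    by_cases h2 : B.1.Adj a x <;> rcases Int.units_eq_one_or (B.2 x) with h3 | h3 <;>
      rcases Int.units_eq_one_or (β x) with h4 | h4 <;> simp [T, inv, h2, h3, h4]
  · simp [T, inv, lc, h]

theorem T_inj {B C : SimpleGraph V × (V → ℤˣ)} {β : V → ℤˣ} (h : ∀ x y, T B β x y ↔ T C β x y) : B = C := by
  refine Prod.ext (SimpleGraph.ext (funext₂ fun x y => propext ?_)) (funext fun x => ?_)
  · by_cases e : x = y
    · simp [e]
    · simpa [T, e] using h x y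
  · have := h x x
    rcases Int.units_eq_one_or (B.2 x) with h2 | h2 <;> rcases Int.units_eq_one_or (C.2 x) with h3 | h3 <;>
      rcases Int.units_eq_one_or (β x) with h4 | h4 <;> simp_all [T]

open Classical in
noncomputable def row (B : SimpleGraph V × (V → ℤˣ)) (x : V) : V → ZMod 2 := fun y => if T B 1 x y then 1 else 0

theorem rows (w : List V) : ∀ B : SimpleGraph V × (V → ℤˣ), ∃ s : Finset (V → ZMod 2), s.card ≤ w.length ∧
    ∀ x, row (w.foldl inv B) x - row B x ∈ Submodule.span (ZMod 2) (s : Set (V → ZMod 2)) := by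
  classical
  induction w with
  | nil => exact fun B => ⟨∅, le_rfl, fun x => by simp⟩
  | cons a w ih =>
    intro B
    obtain ⟨s, hs, h⟩ := ih (inv B a)
    let v : V → ZMod 2 := fun y => if B.1.Adj a y then 1 else 0
    refine ⟨insert v s, (Finset.card_insert_le _ _).trans (by simpa using hs), fun x => ?_⟩
    have e : row (inv B a) x - row B x = v x • v := by
      funext y
      simp only [row, T_inv, v, Pi.sub_apply, Pi.smul_apply, smul_eq_mul]
      by_cases h1 : B.1.Adj a x <;> by_cases h2 : B.1.Adj a y <;> by_cases h3 : T B 1 x y <;> simp [h1, h2, h3]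
    rw [List.foldl_cons, ← sub_add_sub_cancel _ (row (inv B a) x), e]
    exact add_mem (Submodule.span_mono (by simp) (h x)) (Submodule.smul_mem _ _ (Submodule.subset_span (by simp)))

theorem lower [Fintype V] {G : SimpleGraph V} {k : ℕ} (h : Ok G k) : Fintype.card V ≤ k := by
  classical
  obtain ⟨w, hw, e⟩ := h 1
  obtain ⟨s, hs, h⟩ := rows w (G, 1)
  have h1 : Submodule.span (ZMod 2) (s : Set (V → ZMod 2)) = ⊤ := by
    rw [eq_top_iff, ← (Pi.basisFun (ZMod 2) V).span_eq, Submodule.span_le]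
    rintro _ ⟨x, rfl⟩
    have h3 : Pi.basisFun (ZMod 2) V x = row (w.foldl inv (G, 1)) x - row (G, 1) x := by
      funext y
      by_cases h2 : x = y
      · subst h2; simp [e, row, T]
      · simp [e, row, T, h2, Ne.symm h2]
    exact h3 ▸ h x
  have h2 := finrank_span_finset_le_card (R := ZMod 2) s
  rw [Set.finrank, h1, finrank_top, Module.finrank_fintype_fun_eq_card] at h2
  omega

abbrev St := List (ℕ × ℕ)
def sq (n : List Unit) : St := List.range n.length ×ˢ List.range n.length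
def step (n : List Unit) (S : St) (a : ℕ) : St :=
  (sq n).filter fun p => decide (p.1 ≠ a ∧ (a, p.1) ∈ S ∧ p.2 ≠ a ∧ (a, p.2) ∈ S) != decide (p ∈ S)
def grow (n : List Unit) (L : List St) : List St := L ++ (L ×ˢ List.range n.length).map fun q => step n q.1 q.2
def s0 (a : Gr) : St := (sq a.1).filter fun p => a.adjB p.1 p.2
def s1 (a : Gr) : St := (sq a.1).filter fun p => decide (p.1 = p.2) || a.adjB p.1 p.2

open Classical in
noncomputable def rep (n : List Unit) (β : Fin n.length → ℤˣ)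
    (B : SimpleGraph (Fin n.length) × (Fin n.length → ℤˣ)) : St :=
  (sq n).filter fun p => decide (∃ x y : Fin n.length, p = (x.1, y.1) ∧ T B β x y)

theorem mem_sq {n : List Unit} {p : ℕ × ℕ} : p ∈ sq n ↔ ∃ x y : Fin n.length, p = (x.1, y.1) := by
  obtain ⟨x, y⟩ := p
  simp only [sq, List.mem_product, List.mem_range]
  exact ⟨fun h => ⟨⟨x, h.1⟩, ⟨y, h.2⟩, rfl⟩, by rintro ⟨x, y, h⟩; cases h; exact ⟨x.2, y.2⟩⟩

theorem mem_rep {n β B} (x y : Fin n.length) : (x.1, y.1) ∈ rep n β B ↔ T B β x y := by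
  simp only [rep, List.mem_filter, decide_eq_true_eq, Prod.mk.injEq, Fin.val_inj]
  exact ⟨by rintro ⟨-, x, y, ⟨rfl, rfl⟩, h⟩; exact h, fun h => ⟨mem_sq.2 ⟨x, y, rfl⟩, x, y, ⟨rfl, rfl⟩, h⟩⟩

theorem eq_rep {n β B} {f : ℕ × ℕ → Bool} (h : ∀ x y : Fin n.length, f (x.1, y.1) = true ↔ T B β x y) :
    (sq n).filter f = rep n β B := List.filter_congr fun p hp => by
  obtain ⟨x, y, rfl⟩ := mem_sq.1 hp
  rw [Bool.eq_iff_iff, h, ← mem_rep]; simp [rep, hp]

theorem step_rep {n β B} (a : Fin n.length) : step n (rep n β B) a = rep n β (inv B a) := eq_rep fun x y => by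
  have e : ∀ x : Fin n.length, (x.1 ≠ a.1 ∧ T B β a x) ↔ B.1.Adj a x := fun x =>
    ⟨fun h => h.2.resolve_right fun h2 => h.1 (by rw [h2.1]), fun h => ⟨fun e => h.ne (Fin.ext e).symm, .inl h⟩⟩
  rw [T_inv, ← e, ← e, bne_iff_ne, Ne, decide_eq_decide]
  simp only [mem_rep, and_assoc]
  exact (by intro P Q; by_cases P <;> by_cases Q <;> simp [*] : ∀ P Q : Prop, ¬(P ↔ Q) ↔ (P ↔ ¬Q)) _ _

theorem mem_grow {n β} (B) (k : ℕ) (S : St) : S ∈ (grow n)^[k] [rep n β B] ↔
    ∃ w : List (Fin n.length), w.length ≤ k ∧ S = rep n β (w.foldl inv B) := by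
  induction k generalizing S with
  | zero => simp
  | succ k ih =>
    rw [Function.iterate_succ_apply', grow, List.mem_append, List.mem_map, ih]
    constructor
    · rintro (⟨w, h, e⟩ | ⟨⟨S, a⟩, h, rfl⟩)
      · exact ⟨w, by omega, e⟩
      · rw [List.mem_product, ih, List.mem_range] at h
        obtain ⟨⟨w, hw, rfl⟩, ha⟩ := h
        exact ⟨w ++ [⟨a, ha⟩], by simpa using hw, by simpa using step_rep ⟨a, ha⟩⟩
    · rintro ⟨w, h, rfl⟩
      rcases w.eq_nil_or_concat with rfl | ⟨w, a, rfl⟩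
      · exact .inl ⟨[], by simp, rfl⟩
      · exact .inr ⟨(_, a), List.mem_product.2 ⟨(ih _).2 ⟨w, by simpa using h, rfl⟩, by simp⟩,
          by simpa using step_rep a⟩

theorem len_grow (n : List Unit) (L : List St) (k : ℕ) : ((grow n)^[k] L).length = L.length * (n.length + 1) ^ k := by
  induction k with
  | zero => simp
  | succ k ih => rw [Function.iterate_succ_apply', grow]; simp [ih, List.length_product]; ring

theorem ok_iff (a : Gr) (k : ℕ) : s1 a ∈ (grow a.1)^[k] [s0 a] ↔ Ok a.G k := by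
  have e0 : ∀ β, s0 a = rep a.1 β (a.G, β) := fun β => eq_rep fun x y => by simp [T, Gr.adjB_iff]
  have e1 : ∀ β, s1 a = rep a.1 β (a.G, -β) := fun β => eq_rep fun x y => by
    rcases Int.units_eq_one_or (β x) with h | h <;> simp [T, Gr.adjB_iff, Fin.val_inj, h, or_comm]
  refine ⟨fun h β => ?_, fun h => ?_⟩
  · rw [e0 β, mem_grow, e1 β] at h
    obtain ⟨w, hw, e⟩ := h
    exact ⟨w, hw, T_inj (β := β) fun x y => by rw [← mem_rep, ← mem_rep, e]⟩
  · obtain ⟨w, hw, e⟩ := h 1
    rw [e0 1, mem_grow, e1 1]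
    exact ⟨w, hw, by rw [e]⟩

theorem pt_sq : PT sq := by unfold sq; fun_prop

theorem pt_grow : PT fun p : List Unit × List St => grow p.1 p.2 := by
  have h0 := pt_sq
  have h : PT fun p : List Unit × St × ℕ => step p.1 p.2.1 p.2.2 := by unfold step; fun_prop
  have h2 : PT fun p : (List Unit × List St) × St × ℕ => step p.1.1 p.2.1 p.2.2 :=
    h.comp (g := fun p : (List Unit × List St) × St × ℕ => (p.1.1, p.2)) (by fun_prop)
  unfold grow; fun_prop

theorem result : (∀ (V : Type) [Fintype V] (G : SimpleGraph V), (Fintype.card V : ℕ∞) ≤ cr G) ∧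
    FPT (fun a : Gr × ℕ => cr a.1.G ≤ a.2) (fun a => a.2) := by
  refine ⟨fun V _ G => le_iInf₂ fun l h => ENat.natCast_le_natCast.2 (lower h), ?_⟩
  have h0 := pt_sq
  have h1 : PT fun s : (Gr × ℕ) × ℕ × List St => grow s.1.1.1 s.2.2 :=
    pt_grow.comp (g := fun s : (Gr × ℕ) × ℕ × List St => (s.1.1.1, s.2.2)) (by fun_prop)
  have h2 : PT s0 := by unfold s0; fun_prop
  have h3 : PT s1 := by unfold s1; fun_prop
  have h4 : PB fun a : Gr × ℕ => size (sq a.1.1) := PB.size (by fun_prop)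
  have h5 : PB fun a : Gr × ℕ => size a := PB.size'
  have key : ∀ (a : Gr × ℕ) (j : ℕ), (fun s : (Gr × ℕ) × ℕ × List St => (s.1, s.2.1 + 1, grow s.1.1.1 s.2.2))^[j]
      (a, 0, [s0 a.1]) = (a, j, (grow a.1.1)^[j] [s0 a.1]) := fun a j => by
    induction j with
    | zero => rfl
    | succ j ih => rw [Function.iterate_succ_apply', ih, Function.iterate_succ_apply']
  refine FPT.loop (g := fun s : (Gr × ℕ) × ℕ × List St => (s.1, s.2.1 + 1, grow s.1.1.1 s.2.2))
    (c := fun s => decide (s.2.1 < s.1.2 ∧ s.1.1.1.length ≤ s.1.2)) (i := fun a => (a, 0, [s0 a.1]))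
    (o := fun s => decide (s.1.1.1.length ≤ s.1.2 ∧ s1 s.1.1 ∈ s.2.2)) (by fun_prop) (by fun_prop) (by fun_prop)
    (by fun_prop) (f := fun k => (k + 1) ^ (k + 1))
    ((Primrec₂.unpaired'.1 Nat.Primrec.pow).to_comp.comp Computable.succ Computable.succ)
    (B := fun a => size a + size (sq a.1.1) + 20) (by fun_prop)
    fun a => ⟨if a.1.1.length ≤ a.2 then a.2 else 0, ?_, ?_, ?_, ?_, ?_⟩
  · have : a.2 + 1 ≤ (a.2 + 1) ^ (a.2 + 1) := Nat.le_self_pow (by omega) _
    split_ifs <;> nlinarith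
  · intro j hj
    split_ifs at hj with h
    · simp [key, hj, h]
    · omega
  · rw [key]; split_ifs with h <;> simp [h]
  · rw [key, cr_le]
    split_ifs with h
    · simp [h, ok_iff]
    · simpa [h] using fun h2 => h (by simpa using lower h2)
  · intro j hj
    have h6 : a.2 + 1 ≤ (a.2 + 1) ^ (a.2 + 1) := Nat.le_self_pow (by omega) _
    have h7 : ((grow a.1.1)^[j] [s0 a.1]).length ≤ (a.2 + 1) ^ (a.2 + 1) := by
      rw [len_grow]
      split_ifs at hj with h
      · simpa using (Nat.pow_le_pow_left (by omega) _).trans (Nat.pow_le_pow_right (by omega) (by omega))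
      · obtain rfl : j = 0 := by omega
        simpa using Nat.one_le_pow _ _ (by omega)
    have h8 : ∀ S ∈ (grow a.1.1)^[j] [s0 a.1], size S ≤ size (sq a.1.1) := fun S hS => by
      rw [show s0 a.1 = rep a.1.1 1 (a.1.G, 1) from eq_rep fun x y => by simp [T, Gr.adjB_iff], mem_grow] at hS
      obtain ⟨w, -, rfl⟩ := hS
      exact size_sublist List.filter_sublist
    have h9 := size_list_le h8
    have h10 := size_nat_le j
    have h11 : j ≤ a.2 := by split_ifs at hj <;> omega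
    rw [key, size_pair a, size_pair j]
    have h12 := Nat.mul_le_mul_right (size (sq a.1.1) + 1) h7
    generalize (a.2 + 1) ^ (a.2 + 1) = F at *
    have h13 : size a ≤ F * size a := Nat.le_mul_of_pos_left _ (by omega)
    simp only [mul_add] at *
    omega

end Pool.Agent.Results.MP_3f5cd8_lc.Fpt
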